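import Pool.Agent.J6H54.CG.Stm

/-!
# CG-06: collecting the excursions
-/

set_option autoImplicit false

namespace Pool.Agent.J6H68.CG06

open Pool.Agent.J6H54.CG

variable {k : ℕ} {T : Finset Pt} {R D : ℕ}

theorem vis_append (j : ℤ) (R : ℕ) (s : ℤ) (u v : List Pt) :
    vis j R s (u ++ v) =
      ((Finset.range u.length).filter (fun i => (s + ht (u.take i) - j).natAbs ≤ R)).card +
        vis j R (s + ht u) v := by
  unfold vis
  rw [Finset.card_filter, Finset.card_filter, Finset.card_filter, List.length_append,
    Nat.add_assoc, Finset.sum_range_add]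
  congr 1
  · refine Finset.sum_congr rfl fun i hi => ?_
    have h := Finset.mem_range.1 hi
    rw [List.take_append_of_le_length h.le]
  · refine Finset.sum_congr rfl fun i hi => ?_
    rw [List.take_append, List.take_of_length_le (by omega), Nat.add_sub_cancel_left, ht_append,
      add_assoc]

theorem vis_append_av {j : ℤ} {s : ℤ} {u : List Pt} (h : Av j R s u) (v : List Pt) :
    vis j R s (u ++ v) = vis j R (s + ht u) v := by
  rw [vis_append, Finset.filter_false_of_mem, Finset.card_empty, zero_add]
  intro i hi
  have h1 := h i (Finset.mem_range.1 hi).le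
  omega

theorem vis_append_le (j : ℤ) (R : ℕ) (s : ℤ) (u v : List Pt) :
    vis j R s (u ++ v) ≤ u.length + vis j R (s + ht u) v := by
  rw [vis_append]
  have h := Finset.card_filter_le (Finset.range u.length)
    (fun i => (s + ht (u.take i) - j).natAbs ≤ R)
  rw [Finset.card_range] at h
  omega

theorem vis_le (j : ℤ) (R : ℕ) (s : ℤ) (u : List Pt) : vis j R s u ≤ u.length + 1 := by
  unfold vis
  have h := Finset.card_filter_le (Finset.range (u.length + 1))
    (fun i => (s + ht (u.take i) - j).natAbs ≤ R)
  rw [Finset.card_range] at h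
  exact h

/-- a path with small steps which avoids the window stays on one side -/
theorem same_side (hB : Bd k T R) (j : ℤ) (o : List Pt) : ∀ s : ℤ, Wd T o → Av j R s o →
    (0 < s - j → 0 < s + ht o - j) ∧ (s - j < 0 → s + ht o - j < 0) := by
  induction o with
  | nil =>
    intro s _ _
    simp
  | cons a o ih =>
    intro s hw ha
    have h0 := ha 0 (Nat.zero_le _)
    rw [List.take_zero, ht_nil, add_zero] at h0
    have h1 : Av j R (s + a.2) o := by
      intro i hi
      have h2 := ha (i + 1) (by rw [List.length_cons]; omega)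
      rw [List.take_succ_cons, ht_cons] at h2
      rw [add_assoc]
      exact h2
    have h2 := hB.ht_le a (hw a (by simp))
    have h3 := ih (s + a.2) (fun x hx => hw x (by simp [hx])) h1
    have h4 := h1 0 (Nat.zero_le _)
    rw [List.take_zero, ht_nil, add_zero] at h4
    rw [ht_cons, ← add_assoc]
    constructor
    · intro h
      exact h3.1 (by omega)
    · intro h
      exact h3.2 (by omega)

/-- the length of the contribution of an excursion with both ends near the height `c` -/
theorem len_exc (hT : Gen k T) (hB : Bd k T R) {c s : ℤ} {o : List Pt} (ho : Wd T o)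
    (h1 : (s - c).natAbs ≤ R) (h2 : (s + ht o - c).natAbs ≤ R) :
    len k T ((k : ℚ) ^ (-c) * ((k : ℚ) ^ s * (val k o).1), 0) ≤ o.length + 2 * R * R := by
  have hk := hT.two_le
  have e : (((k : ℚ) ^ (-c) * ((k : ℚ) ^ s * (val k o).1), 0) : Pt) =
      mul k (mul k (0, s - c) (val k o)) (0, c - (s + ht o)) := by
    apply Prod.ext
    · simp only [mul_fst, mul_snd]
      rw [mul_zero, add_zero, zero_add, ← mul_assoc, ← zpow_add₀ (kne hk)]
      congr 2
      ring
    · simp only [mul_snd, val_snd]
      ring
  rw [e]
  have h3 := len_mul hT (a := mul k (0, s - c) (val k o)) (b := (0, c - (s + ht o)))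
    (ka_mul hk ka_zero (ka_val hT ho)) ka_zero
  have h4 := len_mul hT (a := (0, s - c)) (b := val k o) ka_zero (ka_val hT ho)
  have h5 := len_le (k := k) ho
  have h6 := len_vert hT hB (s - c)
  have h7 := len_vert hT hB (c - (s + ht o))
  have h8 : R * (s - c).natAbs ≤ R * R := Nat.mul_le_mul_left _ h1
  have h9 : R * (c - (s + ht o)).natAbs ≤ R * R := Nat.mul_le_mul_left _ (by omega)
  have h10 : 2 * R * R = R * R + R * R := by ring
  omega

/-- addition of the contributions at one side -/
theorem len_side (hT : Gen k T) {c : ℤ} {x y : ℚ} {m n : ℕ} (hx : KA k x) (hy : KA k y)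
    (h1 : len k T ((k : ℚ) ^ (-c) * x, 0) ≤ m) (h2 : len k T ((k : ℚ) ^ (-c) * y, 0) ≤ n) :
    len k T ((k : ℚ) ^ (-c) * (x + y), 0) ≤ m + n := by
  have hk := hT.two_le
  have h3 := len_add hT (m := 0) (n := 0) (ka_shift hk hx (-c)) (ka_shift hk hy (-c))
  rw [zpow_zero, one_mul, ← mul_add, add_zero] at h3
  omega

theorem m06 (h3 : S_in) (h5 : S_split) : S_collect := by
  intro k T R D Λ hT hB hRD hΛ j s w hw hs1 hs2
  have hk := hT.two_le
  obtain ⟨N, hN⟩ : ∃ N, w.length = N := ⟨_, rfl⟩
  induction N using Nat.strong_induction_on generalizing s w with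
  | _ N ih =>
    rcases h5 k T R D j s w hB hw.1 hRD hs1 with ⟨e1, e2, rfl, ha, hi⟩ |
      ⟨o, t, w', rfl, ht0, ha, hso1, hso2, hin, hst1, hst2, hlen⟩
    · -- the last part
      refine ⟨0, 0, 0, 0, 0, 0, 0, s, e1 ++ e2, hw.1, by ring, rfl, hs2, ka_zero, ka_zero,
        ⟨0, by simp⟩, by simp, ?_, ?_, by omega, by omega, ?_⟩
      · rw [mul_zero, len_zero]
      · rw [mul_zero, len_zero]
      · rw [vis_append_av ha]
        have h1 : e2.length ≤ Λ := by
          refine hΛ j (s + ht e1) e2 (hw.right hT) ?_
          intro i h0 h1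
          exact hi i h0 h1.le
        have h2 := vis_le j R (s + ht e1) e2
        omega
    · have hwd := hw.1
      have ho : Wd T o := hwd.left.left
      have htw : Wd T t := hwd.left.right
      have hw' : Geo k T w' := hw.right hT
      have htl : 0 < t.length := List.length_pos_of_ne_nil ht0
      have hlw : w'.length < N := by
        rw [← hN]
        simp only [List.length_append]
        omega
      obtain ⟨xu, xl, y, nu, nl, τ, M, ae, e, he, hval, hae, haj, hxu, hxl, hy, hy', hnu, hnl,
        hsum, hM, hvis⟩ := ih w'.length hlw (s + ht o + ht t) w' hw' hst1 hst2 rfl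
      -- the contribution of `t`
      have hin3 := h3 k T R hk hB t (j - D - R) (j + D + R) (s + ht o) htw (by
        intro i hi
        rcases Nat.eq_zero_or_pos i with rfl | h0
        · rw [List.take_zero, ht_nil, add_zero]
          omega
        · have h6 := hin i h0 hi
          omega)
      obtain ⟨ht1, ht2⟩ := hin3
      have e1 : (R : ℤ) - (j - D - R) = D + 2 * R - j := by ring
      have e2 : j + (D : ℤ) + R + R = j + D + 2 * R := by ring
      rw [e1] at ht1
      rw [e2] at ht2
      -- the sum
      have hval' : (k : ℚ) ^ s * (val k (o ++ t ++ w')).1 = (k : ℚ) ^ s * (val k o).1 +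
          (k : ℚ) ^ (s + ht o) * (val k t).1 +
            (k : ℚ) ^ (s + ht o + ht t) * (val k w').1 := by
        rw [val_append_fst hk, val_append_fst hk, ht_append, zpow_add₀ (kne hk) s (ht o),
          zpow_add₀ (kne hk) (s + ht o) (ht t), zpow_add₀ (kne hk) s (ht o),
          zpow_add₀ (kne hk) (ht o) (ht t)]
        ring
      have hkx : KA k ((k : ℚ) ^ s * (val k o).1) := ka_shift hk (ka_val hT ho) s
      have hyy : |y + (k : ℚ) ^ (s + ht o) * (val k t).1| ≤
          ((τ + t.length : ℕ) : ℚ) * (k : ℚ) ^ (j + D + 2 * R) := by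
        refine (abs_add_le _ _).trans ?_
        push_cast
        rw [add_mul]
        exact add_le_add hy' ht2
      have hheight : ae + ht e = s + ht (o ++ t ++ w') := by
        rw [hae, ht_append, ht_append]
        ring
      have hlen' : (o ++ t ++ w').length = o.length + t.length + w'.length := by
        simp only [List.length_append]
      have hM' : 2 * (D - R) * (M + 1) ≤ R * (τ + t.length) := by
        rw [Nat.mul_add, Nat.mul_add, mul_one]
        exact Nat.add_le_add hM hlen
      have hvis' : vis j R s (o ++ t ++ w') ≤ (τ + t.length) + (M + 1) + Λ + 1 := by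
        rw [List.append_assoc, vis_append_av ha]
        have h7 := vis_append_le j R (s + ht o) t w'
        omega
      have hRM : 2 * R * R * (M + 1) = 2 * R * R * M + 2 * R * R := by ring
      have hside := same_side hB j o s ho ha
      rcases lt_or_gt_of_ne (show s - j ≠ 0 by omega) with hneg | hpos
      · -- below
        have hneg' := hside.2 hneg
        have hexc := len_exc hT hB (c := j - D) (s := s) ho (by omega) (by omega)
        refine ⟨xu, xl + (k : ℚ) ^ s * (val k o).1, y + (k : ℚ) ^ (s + ht o) * (val k t).1, nu,
          nl + (o.length + 2 * R * R), τ + t.length, M + 1, ae, e, he, ?_, hheight, haj, hxu,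
          ka_add hk hxl hkx, kad_add hy ht1, hyy, hnu, len_side hT hxl hkx hnl hexc, ?_, hM',
          hvis'⟩
        · rw [hval', hval]
          ring
        · rw [hlen', hRM]
          omega
      · -- above
        have hpos' := hside.1 hpos
        have hexc := len_exc hT hB (c := j + D) (s := s) ho (by omega) (by omega)
        refine ⟨xu + (k : ℚ) ^ s * (val k o).1, xl, y + (k : ℚ) ^ (s + ht o) * (val k t).1,
          nu + (o.length + 2 * R * R), nl, τ + t.length, M + 1, ae, e, he, ?_, hheight, haj,
          ka_add hk hxu hkx, hxl, kad_add hy ht1, hyy, len_side hT hxu hkx hnu hexc, hnl, ?_, hM',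
          hvis'⟩
        · rw [hval', hval]
          ring
        · rw [hlen', hRM]
          omega

end Pool.Agent.J6H68.CG06
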